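import Pool.Agent.X134.CA.Main

/-!
# Reversible number-conserving cellular automata with three states and von Neumann neighbourhood

For every `d ≥ 1` the identity and the `2 d` unit shifts are the only reversible number-conserving
cellular automata on `ℤ^d` with the state set `{0, 1, 2}` and the von Neumann neighbourhood.
-/

namespace Pool.Agent.Results.MP_944d6d_mp.AllDimensions

open Pool.Agent.X134.CA

/-- The configurations: maps from `ℤ^d` to `{0, 1, 2}`. -/
abbrev Conf (d : ℕ) : Type := (Fin d → ℤ) → Fin 3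

variable {d : ℕ}

/-- The unit vector `e_i` of `ℤ^d`. -/
def e (i : Fin d) : Fin d → ℤ := Pi.single i 1

/-- `F` is the global map of a cellular automaton with the von Neumann neighbourhood: there is a
local rule `f` such that the new state of the cell `v` is the value of `f` at the states of `v`, of
the cells `v + e_i` and of the cells `v - e_i`. -/
def IsCA (F : Conf d → Conf d) : Prop :=
  ∃ f : Fin 3 → (Fin d → Fin 3) → (Fin d → Fin 3) → Fin 3, ∀ (x : Conf d) (v : Fin d → ℤ),
    F x v = f (x v) (fun i => x (v + e i)) (fun i => x (v - e i))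

/-- `F` is number-conserving: for every configuration `x` which is periodic along each coordinate
direction, with the periods `n i > 0`, the sums of the states of `x` and of `F x` over one period
are the same. -/
def NumberConserving (F : Conf d → Conf d) : Prop :=
  ∀ n : Fin d → ℕ, (∀ i, 0 < n i) → ∀ x : Conf d,
    (∀ (v : Fin d → ℤ) (i : Fin d), x (v + (n i : ℤ) • e i) = x v) →
    ∑ v ∈ Fintype.piFinset (fun i => Finset.Ico (0 : ℤ) (n i)), ((F x v : Fin 3) : ℕ) =
      ∑ v ∈ Fintype.piFinset (fun i => Finset.Ico (0 : ℤ) (n i)), ((x v : Fin 3) : ℕ)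

/-- `F` is trivial: it is the identity or one of the `2 d` unit shifts. -/
def IsTrivial (F : Conf d → Conf d) : Prop :=
  (∀ x, F x = x) ∨ ∃ i : Fin d, (∀ x v, F x v = x (v + e i)) ∨ (∀ x v, F x v = x (v - e i))

/-- the local rule as a function of patterns -/
def rl (f : Fin 3 → (Fin d → Fin 3) → (Fin d → Fin 3) → Fin 3) (y : Od d → Fin 3) : Fin 3 :=
  f (y none) (fun i => y (some (i, true))) (fun i => y (some (i, false)))

lemma F_eq {F : Conf d → Conf d} {f : Fin 3 → (Fin d → Fin 3) → (Fin d → Fin 3) → Fin 3}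
    (hf : ∀ (x : Conf d) (v : Fin d → ℤ),
      F x v = f (x v) (fun i => x (v + e i)) (fun i => x (v - e i))) (x : Conf d)
    (v : Fin d → ℤ) : F x v = rl f (fun o => x (v + oz o)) := by
  rw [hf]
  unfold rl
  congr 1
  · simp [oz]
  · funext i
    congr 1
    simp only [oz, e, sg, Bool.false_eq_true, if_false, Pi.single_neg, sub_eq_add_neg]

lemma nct {F : Conf d → Conf d} {f : Fin 3 → (Fin d → Fin 3) → (Fin d → Fin 3) → Fin 3}
    (hf : ∀ (x : Conf d) (v : Fin d → ℤ),
      F x v = f (x v) (fun i => x (v + e i)) (fun i => x (v - e i)))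
    (hN : NumberConserving F) : NCT (rl f) := by
  intro x
  set X : Conf d := fun v => x (fun i => ((v i : ℤ) : ZMod 5)) with hX
  have h1 := hN (fun _ => 5) (fun _ => by norm_num) X (by
    intro v i
    simp only [hX]
    congr 1
    funext j
    simp only [Pi.add_apply, Pi.smul_apply, smul_eq_mul]
    push_cast
    have : ((5 : ℤ) : ZMod 5) = 0 := rfl
    have h5 : (5 : ZMod 5) = 0 := rfl
    rw [h5, zero_mul, add_zero])
  have h2 : ∀ v, F X v = rl f (pt x (fun i => ((v i : ℤ) : ZMod 5))) := by
    intro v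
    rw [F_eq hf]
    congr 1
    funext o
    simp only [hX, pt]
    congr 1
    funext j
    simp only [Pi.add_apply, off]
    push_cast
    rfl
  have key : ∀ G : (Fin d → ZMod 5) → ℤ,
      ∑ v ∈ Fintype.piFinset (fun _ : Fin d => Finset.Ico (0 : ℤ) ((5 : ℕ) : ℤ)),
        G (fun i => ((v i : ℤ) : ZMod 5)) = ∑ a, G a := by
    intro G
    refine Finset.sum_bij' (fun v _ => fun i => ((v i : ℤ) : ZMod 5))
      (fun a _ => fun i => (((a i).val : ℕ) : ℤ)) ?_ ?_ ?_ ?_ ?_
    · intro v _; exact Finset.mem_univ _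
    · intro a _
      rw [Fintype.mem_piFinset]
      intro i
      rw [Finset.mem_Ico]
      exact ⟨by positivity, by exact_mod_cast ZMod.val_lt (a i)⟩
    · intro v hv
      rw [Fintype.mem_piFinset] at hv
      funext i
      have h3 := Finset.mem_Ico.1 (hv i)
      have h4 : ((((v i : ℤ) : ZMod 5).val : ℕ) : ℤ) = v i % 5 := ZMod.val_intCast _
      simp only
      rw [h4]
      exact Int.emod_eq_of_lt h3.1 h3.2
    · intro a _
      funext i
      simp
    · intro v _; rfl
  have h3 := key (fun a => ((rl f (pt x a) : Fin 3) : ℕ))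
  have h4 := key (fun a => ((x a : Fin 3) : ℕ))
  rw [← h3, ← h4]
  rw [Finset.sum_congr rfl (fun v _ => by rw [h2 v])] at h1
  simp only [hX] at h1
  exact_mod_cast h1

/-- words of period four -/
def wd (w : Fin 3 × Fin 3 × Fin 3 × Fin 3) (k : ℤ) : Fin 3 :=
  if k % 4 = 0 then w.1 else if k % 4 = 1 then w.2.1 else if k % 4 = 2 then w.2.2.1 else w.2.2.2

lemma inj4 {F : Conf d → Conf d} {f : Fin 3 → (Fin d → Fin 3) → (Fin d → Fin 3) → Fin 3}
    (hf : ∀ (x : Conf d) (v : Fin d → ℤ),
      F x v = f (x v) (fun i => x (v + e i)) (fun i => x (v - e i)))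
    (hinj : Function.Injective F) (i : Fin d) (w w' : Fin 3 × Fin 3 × Fin 3 × Fin 3)
    (h1 : rl f (pa i w.2.2.2 w.1 w.2.1) = rl f (pa i w'.2.2.2 w'.1 w'.2.1))
    (h2 : rl f (pa i w.1 w.2.1 w.2.2.1) = rl f (pa i w'.1 w'.2.1 w'.2.2.1))
    (h3 : rl f (pa i w.2.1 w.2.2.1 w.2.2.2) = rl f (pa i w'.2.1 w'.2.2.1 w'.2.2.2))
    (h4 : rl f (pa i w.2.2.1 w.2.2.2 w.1) = rl f (pa i w'.2.2.1 w'.2.2.2 w'.1)) : w = w' := by
  have key : ∀ (u : Fin 3 × Fin 3 × Fin 3 × Fin 3) (v : Fin d → ℤ),
      F (fun v => wd u (v i)) v = rl f (pa i (wd u (v i - 1)) (wd u (v i)) (wd u (v i + 1))) := by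
    intro u v
    rw [F_eq hf]
    congr 1
    funext o
    unfold pa
    split_ifs with g1 g2
    · subst g1
      simp [oz, sg, sub_eq_add_neg]
    · subst g2
      simp [oz, sg]
    · have : oz o i = 0 := by
        have hb := oz_bd o i
        have n1 : oz o i ≠ sg false := fun hh => g1 (eq_of_oz hh)
        have n2 : oz o i ≠ sg true := fun hh => g2 (eq_of_oz hh)
        simp only [sg, Bool.false_eq_true, if_false, if_true] at n1 n2
        omega
      simp [this]
  have h5 : F (fun v => wd w (v i)) = F (fun v => wd w' (v i)) := by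
    funext v
    rw [key, key]
    have hm : v i % 4 = 0 ∨ v i % 4 = 1 ∨ v i % 4 = 2 ∨ v i % 4 = 3 := by omega
    rcases hm with hm | hm | hm | hm
    · have a1 : (v i - 1) % 4 = 3 := by omega
      have a2 : (v i + 1) % 4 = 1 := by omega
      simpa [wd, hm, a1, a2] using h1
    · have a1 : (v i - 1) % 4 = 0 := by omega
      have a2 : (v i + 1) % 4 = 2 := by omega
      simpa [wd, hm, a1, a2] using h2
    · have a1 : (v i - 1) % 4 = 1 := by omega
      have a2 : (v i + 1) % 4 = 3 := by omega
      simpa [wd, hm, a1, a2] using h3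
    · have a1 : (v i - 1) % 4 = 2 := by omega
      have a2 : (v i + 1) % 4 = 0 := by omega
      simpa [wd, hm, a1, a2] using h4
  have h6 := hinj h5
  have h7 : ∀ k : ℤ, wd w k = wd w' k := fun k => congrFun h6 (fun _ => k)
  have c0 := h7 0
  have c1 := h7 1
  have c2 := h7 2
  have c3 := h7 3
  norm_num [wd] at c0 c1 c2 c3
  exact Prod.ext c0 (Prod.ext c1 (Prod.ext c2 c3))

/-- **Reversible number-conserving cellular automata with three states and von Neumann
neighbourhood are trivial**, in every dimension `d ≥ 1`: if `F` is the global map of a cellular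
automaton on `ℤ^d` with state set `{0, 1, 2}` and von Neumann neighbourhood, `F` is bijective and
number-conserving, then `F` is the identity or one of the `2 d` unit shifts. -/
theorem result (d : ℕ) (hd : 1 ≤ d) (F : Conf d → Conf d) (hCA : IsCA F)
    (hrev : Function.Bijective F) (hN : NumberConserving F) : IsTrivial F := by
  have : NeZero d := ⟨by omega⟩
  obtain ⟨f, hf⟩ := hCA
  obtain ⟨u, hu⟩ := proj (nct hf hN) (fun i w w' => inj4 hf hrev.1 i w w')
  have h1 : ∀ x v, F x v = x (v + oz u) := fun x v => by rw [F_eq hf, hu]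
  rcases u with _ | ⟨i, b⟩
  · left
    intro x
    funext v
    rw [h1]
    simp [oz]
  · right
    refine ⟨i, ?_⟩
    cases b
    · right
      intro x v
      rw [h1]
      simp only [oz, e, sg, Bool.false_eq_true, if_false, Pi.single_neg, sub_eq_add_neg]
    · left
      intro x v
      rw [h1]
      rfl

end Pool.Agent.Results.MP_944d6d_mp.AllDimensions
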